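import Mathlib
import Pool.Agent.H70.TIE.All2

/-!
# Prime number races: the difference is often large

`D(n) = π(n;q,a) - π(n;q,b)` for distinct reduced classes `a`, `b` modulo `q`. For every `ε > 0`
there is `c > 0`, the same for all `q`, `a`, `b`, such that for every `A`, all `N ≥ N₀(q,A)`, all
`1 ≤ m ≤ (log N)^A` and all integers `v`, at least `c N / m^(2+ε)` of the integers `n ≤ N` have
`|D(n) - v| ≥ m`. With `v = 0`, `m = 1`: the ties have upper density at most `1 - c`, where `c` is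
an absolute constant.
-/

namespace Pool.Agent.Results.MP_8d92d6_nt.PositiveProportion

open Finset

theorem result (ε : ℝ) (hε : 0 < ε) :
    ∃ c : ℝ, 0 < c ∧ ∀ q a b : ℕ, 1 ≤ q → a.Coprime q → b.Coprime q → ¬ a ≡ b [MOD q] →
      ∀ A : ℕ, ∃ N₀ : ℕ, ∀ (N m : ℕ) (v : ℤ), N₀ ≤ N → 1 ≤ m → (m : ℝ) ≤ (Real.log N) ^ A →
      c * N / (m : ℝ) ^ (2 + ε) ≤ (((Icc 1 N).filter (fun n => (m : ℤ) ≤
        |((((Icc 1 n).filter (fun p => p.Prime ∧ p ≡ a [MOD q])).card : ℤ) -
          (((Icc 1 n).filter (fun p => p.Prime ∧ p ≡ b [MOD q])).card : ℤ)) - v|)).card : ℝ) :=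
  TIE.all_TIEu ε hε

end Pool.Agent.Results.MP_8d92d6_nt.PositiveProportion
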